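import Pool.Agent.Y161.R10.The

/-!
# The functional equation of the theta function of an odd primitive character

The argument is that of `Pool.Agent.Y161.R10.The` (the even case), with the odd kernels.
-/

set_option autoImplicit false

namespace Pool.Agent.Y306.R11

open Real Complex HurwitzZeta Finset
open Pool.Agent.Y161.R10 (sum_fin)

variable {q : ℕ} [NeZero q]

/-- the terms of the odd theta function -/
noncomputable def tmo (χ : DirichletCharacter ℂ q) (t : ℝ) (m : ℤ) : ℂ :=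
  χ (m : ZMod q) * ((m : ℂ) * (Real.exp (-π * (m : ℝ) ^ 2 * t) : ℂ))

lemma summable_mexp {t : ℝ} (ht : 0 < t) :
    Summable (fun m : ℤ => |(m : ℝ) * Real.exp (-π * (m : ℝ) ^ 2 * t)|) := by
  have h := (hasSum_int_oddKernel 0 ht).summable.abs
  simpa using h

omit [NeZero q] in
lemma summable_tmo (χ : DirichletCharacter ℂ q) {t : ℝ} (ht : 0 < t) : Summable (tmo χ t) := by
  refine Summable.of_norm_bounded (summable_mexp ht) fun m => ?_
  unfold tmo
  rw [norm_mul]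
  have h1 : ‖(m : ℂ) * (Real.exp (-π * (m : ℝ) ^ 2 * t) : ℂ)‖ =
      |(m : ℝ) * Real.exp (-π * (m : ℝ) ^ 2 * t)| := by
    rw [← Real.norm_eq_abs, ← Complex.norm_real]
    push_cast
    rfl
  rw [h1]
  exact mul_le_of_le_one_left (abs_nonneg _) (χ.norm_le_one _)

/-- splitting a sum over the integers into residue classes -/
lemma tsum_classes {f : ℤ → ℂ} (hf : Summable f) :
    ∑' m : ℤ, f m = ∑ b : Fin q, ∑' n : ℤ, f (n * q + ((b : ℕ) : ℤ)) := by
  let e : Fin q × ℤ ≃ ℤ := (Equiv.prodComm _ _).trans (Int.divModEquiv q).symm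
  have he : ∀ p : Fin q × ℤ, e p = p.2 * q + ((p.1 : ℕ) : ℤ) := fun p => rfl
  have hs' : Summable (fun p : Fin q × ℤ => f (e p)) := e.summable_iff.2 hf
  rw [← e.tsum_eq, hs'.tsum_prod, tsum_fintype]
  refine Finset.sum_congr rfl fun b _ => tsum_congr fun n => ?_
  rw [he]

lemma tmo_class (χ : DirichletCharacter ℂ q) (y : ℝ) (b : ℕ) (n : ℤ) :
    tmo χ (y / q) (n * q + (b : ℤ)) = χ (b : ZMod q) * (q : ℂ) *
      (((n + (b / q : ℝ)) * Real.exp (-π * (n + (b / q : ℝ)) ^ 2 * (q * y)) : ℝ) : ℂ) := by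
  have hq : (q : ℝ) ≠ 0 := by exact_mod_cast NeZero.ne q
  have hqC : (q : ℂ) ≠ 0 := by exact_mod_cast NeZero.ne q
  unfold tmo
  have e1 : -π * (((n * q + (b : ℤ) : ℤ)) : ℝ) ^ 2 * (y / q) =
      -π * (n + (b / q : ℝ)) ^ 2 * (q * y) := by
    push_cast
    field_simp
  have e2 : (((n * q + (b : ℤ) : ℤ)) : ℂ) = (q : ℂ) * ((n + (b / q : ℝ) : ℝ) : ℂ) := by
    push_cast
    field_simp
  have e3 : (((n * q + (b : ℤ) : ℤ)) : ZMod q) = (b : ZMod q) := by
    push_cast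
    simp
  rw [e1, e2, e3, Complex.ofReal_mul]
  ring

/-- splitting into residue classes -/
lemma sum_tmo (χ : DirichletCharacter ℂ q) {y : ℝ} (hy : 0 < y) :
    ∑' m : ℤ, tmo χ (y / q) m =
      ∑ b : Fin q, χ ((b : ℕ) : ZMod q) * (q : ℂ) *
        (oddKernel (((b : ℕ) / q : ℝ)) (q * y) : ℂ) := by
  have hq : (0 : ℝ) < q := by exact_mod_cast NeZero.pos q
  rw [tsum_classes (q := q) (summable_tmo χ (t := y / q) (by positivity))]
  refine Finset.sum_congr rfl fun b _ => ?_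
  have h1 : HasSum (fun n : ℤ => (((n + ((b : ℕ) / q : ℝ)) *
      Real.exp (-π * (n + ((b : ℕ) / q : ℝ)) ^ 2 * (q * y)) : ℝ) : ℂ))
      (oddKernel (((b : ℕ) / q : ℝ)) (q * y) : ℂ) :=
    (hasSum_ofReal.2 (hasSum_int_oddKernel _ (by positivity)))
  rw [← (h1.mul_left (χ ((b : ℕ) : ZMod q) * (q : ℂ))).tsum_eq]
  exact tsum_congr fun n => tmo_class χ y b n

/-- the dual side -/
lemma sum_dualo (χ : DirichletCharacter ℂ q) (hχ : χ.IsPrimitive) {t : ℝ} (ht : 0 < t) :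
    ∑ b : Fin q, χ ((b : ℕ) : ZMod q) * (sinKernel (((b : ℕ) / q : ℝ)) t : ℂ) =
      -I * gaussSum χ ZMod.stdAddChar * ∑' m : ℤ, tmo χ⁻¹ t m := by
  have hq : (q : ℂ) ≠ 0 := by exact_mod_cast NeZero.ne q
  have h1 : HasSum (fun n : ℤ => ∑ b : Fin q, χ ((b : ℕ) : ZMod q) *
      (-I * n * cexp (2 * π * I * (((b : ℕ) / q : ℝ) : ℂ) * n) *
        (Real.exp (-π * (n : ℝ) ^ 2 * t) : ℂ)))
      (∑ b : Fin q, χ ((b : ℕ) : ZMod q) * (sinKernel (((b : ℕ) / q : ℝ)) t : ℂ)) := by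
    refine hasSum_sum fun b _ => ?_
    exact (hasSum_int_sinKernel _ ht).mul_left _
  rw [← h1.tsum_eq, ← tsum_mul_left]
  refine tsum_congr fun n => ?_
  have h2 : ∑ b : Fin q, χ ((b : ℕ) : ZMod q) * cexp (2 * π * I * (((b : ℕ) / q : ℝ) : ℂ) * n) =
      gaussSum χ ((ZMod.stdAddChar (N := q)).mulShift (n : ZMod q)) := by
    unfold gaussSum
    refine sum_fin (fun a => χ a * ((ZMod.stdAddChar (N := q)).mulShift (n : ZMod q)) a)
      (fun b => χ (b : ZMod q) * cexp (2 * π * I * ((b / q : ℝ) : ℂ) * n)) fun a => ?_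
    rw [AddChar.mulShift_apply, ZMod.natCast_zmod_val]
    have h4 : (n : ZMod q) * a = ((n * (a.val : ℤ) : ℤ) : ZMod q) := by
      push_cast
      rw [ZMod.natCast_zmod_val]
    rw [h4, ZMod.stdAddChar_coe]
    congr 2
    push_cast
    field_simp
  have h5 := gaussSum_mulShift_of_isPrimitive (ZMod.stdAddChar (N := q)) hχ (n : ZMod q)
  rw [← h2] at h5
  unfold tmo
  calc ∑ b : Fin q, χ ((b : ℕ) : ZMod q) *
      (-I * n * cexp (2 * π * I * (((b : ℕ) / q : ℝ) : ℂ) * n) *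
        (Real.exp (-π * (n : ℝ) ^ 2 * t) : ℂ))
      = (∑ b : Fin q, χ ((b : ℕ) : ZMod q) *
          cexp (2 * π * I * (((b : ℕ) / q : ℝ) : ℂ) * n)) *
          (-I * n * (Real.exp (-π * (n : ℝ) ^ 2 * t) : ℂ)) := by
        rw [Finset.sum_mul]
        exact Finset.sum_congr rfl fun b _ => by ring
    _ = _ := by
        rw [h5]
        ring

omit [NeZero q] in
/-- folding -/
lemma foldo (χ : DirichletCharacter ℂ q) (ho : χ (-1) = -1) {t : ℝ} (ht : 0 < t) :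
    ∑' m : ℤ, tmo χ t m =
      2 * ∑' n : ℕ, χ ((n + 1 : ℕ) : ZMod q) *
        (((n : ℂ) + 1) * (Real.exp (-π * ((n : ℝ) + 1) ^ 2 * t) : ℂ)) := by
  have hs := summable_tmo χ ht
  have h0 : tmo χ t 0 = 0 := by
    unfold tmo
    rw [Int.cast_zero, Int.cast_zero, zero_mul, mul_zero]
  have hneg : ∀ m : ℤ, tmo χ t (-m) = tmo χ t m := by
    intro m
    unfold tmo
    have h1 : χ (((-m : ℤ)) : ZMod q) = -χ (m : ZMod q) := by
      rw [Int.cast_neg, ← neg_one_mul, map_mul, ho]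
      ring
    rw [h1]
    push_cast
    rw [neg_sq]
    ring
  have h1 : Summable (fun n : ℕ => tmo χ t (n : ℤ)) :=
    hs.comp_injective Nat.cast_injective
  have h2 : Summable (fun n : ℕ => tmo χ t (-((n : ℤ) + 1))) :=
    hs.comp_injective (i := fun n : ℕ => -((n : ℤ) + 1)) (fun a b hab => by
      simp only [neg_inj, add_left_inj, Nat.cast_inj] at hab
      exact hab)
  rw [tsum_of_nat_of_neg_add_one h1 h2, h1.tsum_eq_zero_add]
  rw [Nat.cast_zero, h0, zero_add, two_mul]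
  congr 1
  · refine tsum_congr fun n => ?_
    unfold tmo
    push_cast
    rfl
  · refine tsum_congr fun n => ?_
    rw [hneg]
    unfold tmo
    push_cast
    rfl

theorem oddthe (χ : DirichletCharacter ℂ q) (hχ : χ.IsPrimitive) (ho : χ (-1) = -1)
    {x : ℝ} (hx : 0 < x) :
    ∑' n : ℕ, χ ((n + 1 : ℕ) : ZMod q) *
      (((n : ℂ) + 1) * (Real.exp (-π * ((n : ℝ) + 1) ^ 2 * (x⁻¹ / q)) : ℂ)) =
    (-I * gaussSum χ ZMod.stdAddChar / (Real.sqrt q : ℂ)) * ((x ^ (3 / 2 : ℝ) : ℝ) : ℂ) *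
    ∑' n : ℕ, χ⁻¹ ((n + 1 : ℕ) : ZMod q) *
      (((n : ℂ) + 1) * (Real.exp (-π * ((n : ℝ) + 1) ^ 2 * (x / q)) : ℂ)) := by
  have hq0 : (0 : ℝ) < q := by exact_mod_cast NeZero.pos q
  have hx' : 0 < x⁻¹ := inv_pos.2 hx
  have h1 := sum_tmo χ hx'
  have h2 := sum_dualo χ hχ (t := 1 / (q * x⁻¹)) (by positivity)
  have h3 : ∑ b : Fin q, χ ((b : ℕ) : ZMod q) * (q : ℂ) *
      (oddKernel (((b : ℕ) / q : ℝ)) (q * x⁻¹) : ℂ) =
      (((q : ℝ) / (q * x⁻¹) ^ (3 / 2 : ℝ) : ℝ) : ℂ) *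
        ∑ b : Fin q, χ ((b : ℕ) : ZMod q) * (sinKernel (((b : ℕ) / q : ℝ)) (1 / (q * x⁻¹)) : ℂ) := by
    rw [Finset.mul_sum]
    refine Finset.sum_congr rfl fun b _ => ?_
    rw [oddKernel_functional_equation]
    push_cast
    ring
  rw [h3, h2] at h1
  have ho' : (χ⁻¹) (-1) = -1 := by
    rw [MulChar.inv_apply_eq_inv', ho]
    norm_num
  rw [foldo χ ho (by positivity), foldo χ⁻¹ ho' (by positivity)] at h1
  have h5 : 1 / (q * x⁻¹) = x / q := by
    field_simp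
  rw [h5] at h1
  have h7 : ((q : ℝ) / (q * x⁻¹) ^ (3 / 2 : ℝ) : ℝ) = x ^ (3 / 2 : ℝ) / Real.sqrt q := by
    have e1 : (3 / 2 : ℝ) = 1 + 1 / 2 := by norm_num
    rw [Real.mul_rpow hq0.le hx'.le, Real.inv_rpow hx.le]
    have e2 : (q : ℝ) ^ (3 / 2 : ℝ) = q * Real.sqrt q := by
      rw [e1, Real.rpow_add hq0, Real.rpow_one, Real.sqrt_eq_rpow]
    rw [e2]
    have hs : Real.sqrt q ≠ 0 := (Real.sqrt_pos.2 hq0).ne'
    have hx3 : x ^ (3 / 2 : ℝ) ≠ 0 := (Real.rpow_pos_of_pos hx _).ne'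
    field_simp
  rw [h7] at h1
  have h8 : ∀ A B C G : ℂ, 2 * A = C * (G * (2 * B)) → A = C * G * B := by
    intro A B C G h
    have h9 : (2 : ℂ) ≠ 0 := two_ne_zero
    have h10 : 2 * A = 2 * (C * G * B) := by rw [h]; ring
    exact mul_left_cancel₀ h9 h10
  rw [h8 _ _ _ _ h1]
  push_cast
  ring

end Pool.Agent.Y306.R11
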