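import Pool.Agent.Y766.R11.Stm
import Pool.Agent.Y737.R10.Afe
import Pool.Agent.Y306.R11.OddThe

/-!
# Job 7334 (R11/AFG): the approximate functional equation, both parities, general `s`

The lemmas of `Pool.Agent.Y737.R10.Afe` for coefficients of linear growth.
-/

set_option autoImplicit false

open Complex Filter Topology Set MeasureTheory

namespace Pool.Agent.Y306.R11

open Pool.Agent.Y737.R10 (Th exp_le_a IG real_int norm_cpow cplx_int scale p_cpow)

theorem summable_nexp {a : ℝ} (ha : 0 < a) :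
    Summable fun n : ℕ => ((n : ℝ) + 1) * Real.exp (-(a * n)) := by
  have h1 := Real.summable_pow_mul_exp_neg_nat_mul 1 ha
  have h2 := Real.summable_pow_mul_exp_neg_nat_mul 0 ha
  refine (h1.add h2).congr fun n => ?_
  have e : -a * (n : ℝ) = -(a * n) := by ring
  rw [e]
  ring

section

variable {b : ℕ → ℂ} {c : ℝ}

theorem norm_term (hb : ∀ n, ‖b n‖ ≤ (n : ℝ) + 1) (x : ℝ) (n : ℕ) :
    ‖b n * (Real.exp (-(c * ((n : ℝ) + 1) ^ 2) * x) : ℂ)‖ ≤
      ((n : ℝ) + 1) * Real.exp (-(c * ((n : ℝ) + 1) ^ 2) * x) := by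
  rw [norm_mul, Complex.norm_real, Real.norm_eq_abs, Real.abs_exp]
  exact mul_le_mul_of_nonneg_right (hb n) (Real.exp_pos _).le

theorem norm_term' (hb : ∀ n, ‖b n‖ ≤ (n : ℝ) + 1) (hc : 0 < c) {x : ℝ} (hx : 0 < x) (n : ℕ) :
    ‖b n * (Real.exp (-(c * ((n : ℝ) + 1) ^ 2) * x) : ℂ)‖ ≤
      ((n : ℝ) + 1) * Real.exp (-((c * x) * n)) :=
  (norm_term hb x n).trans (mul_le_mul_of_nonneg_left (exp_le_a hc hx n) (by positivity))

theorem summable_term (hb : ∀ n, ‖b n‖ ≤ (n : ℝ) + 1) (hc : 0 < c) {x : ℝ} (hx : 0 < x) :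
    Summable fun n : ℕ => b n * (Real.exp (-(c * ((n : ℝ) + 1) ^ 2) * x) : ℂ) :=
  Summable.of_norm_bounded (summable_nexp (a := c * x) (by positivity)) fun n =>
    norm_term' hb hc hx n

theorem continuousOn_Th (hb : ∀ n, ‖b n‖ ≤ (n : ℝ) + 1) (hc : 0 < c) :
    ContinuousOn (Th b c) (Ioi 0) := by
  refine continuousOn_of_forall_continuousAt fun x (hx : 0 < x) => ?_
  have h : ContinuousOn (Th b c) (Ici (x / 2)) := by
    unfold Th
    refine continuousOn_tsum (u := fun n : ℕ => ((n : ℝ) + 1) * Real.exp (-((c * (x / 2)) * n)))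
      (fun n => Continuous.continuousOn (by fun_prop)) (summable_nexp (by positivity))
      fun n y (hy : x / 2 ≤ y) => ?_
    refine (norm_term hb y n).trans (mul_le_mul_of_nonneg_left ?_ (by positivity))
    refine (le_trans ?_ (exp_le_a hc (half_pos hx) n))
    refine Real.exp_le_exp.2 ?_
    have h1 : 0 ≤ c * ((n : ℝ) + 1) ^ 2 := by positivity
    nlinarith [mul_le_mul_of_nonneg_left hy h1]
  exact h.continuousAt (Ici_mem_nhds (by linarith))

theorem Th_isBigO (hb : ∀ n, ‖b n‖ ≤ (n : ℝ) + 1) (hc : 0 < c) (r : ℝ) :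
    (fun x => Th b c x - 0) =O[atTop] fun x => x ^ r := by
  refine Asymptotics.IsBigO.trans ?_ (isLittleO_exp_neg_mul_rpow_atTop hc r).isBigO
  refine Asymptotics.IsBigO.of_bound (∑' n : ℕ, ((n : ℝ) + 1) * Real.exp (-(c * n))) ?_
  filter_upwards [eventually_ge_atTop 1] with x hx
  rw [sub_zero, Real.norm_eq_abs, Real.abs_exp]
  have hs := summable_nexp hc
  unfold Th
  refine (tsum_of_norm_bounded (g := fun n : ℕ => ((n : ℝ) + 1) * Real.exp (-(c * n)) *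
    Real.exp (-c * x)) (hs.hasSum.mul_right _) fun n => ?_)
  refine (norm_term hb x n).trans ?_
  rw [mul_assoc, ← Real.exp_add]
  refine mul_le_mul_of_nonneg_left (Real.exp_le_exp.2 ?_) (by positivity)
  have hn : (0 : ℝ) ≤ n := Nat.cast_nonneg n
  have h1 : x + n ≤ ((n : ℝ) + 1) ^ 2 * x := by
    nlinarith [mul_nonneg hn (by linarith : 0 ≤ x - 1), mul_nonneg hn hn]
  nlinarith [mul_le_mul_of_nonneg_left h1 hc.le]

theorem int_tail {Y : ℝ} {w : ℂ} (hb : ∀ n, ‖b n‖ ≤ (n : ℝ) + 1) (hc : 0 < c) (hY : 0 < Y)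
    (hw : 0 < w.re) :
    ∫ t in Ioi Y, (t : ℂ) ^ (w - 1) * Th b c t =
      ∑' n : ℕ, b n * (((c * ((n : ℝ) + 1) ^ 2 : ℝ) : ℂ) ^ (-w) *
        IG w (c * ((n : ℝ) + 1) ^ 2 * Y)) := by
  have hpos : ∀ n : ℕ, 0 < c * ((n : ℝ) + 1) ^ 2 := fun n => by positivity
  have hint : ∀ n : ℕ, Integrable (fun t : ℝ => (t : ℂ) ^ (w - 1) *
      (b n * (Real.exp (-(c * ((n : ℝ) + 1) ^ 2) * t) : ℂ))) (volume.restrict (Ioi Y)) := by
    intro n
    refine ((cplx_int hw (hpos n) hY.le).const_mul (b n)).congr (Eventually.of_forall fun t => ?_)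
    beta_reduce
    rw [neg_mul]
    ring
  set J : ℝ := ∫ t in Ioi (0 : ℝ), t ^ (w.re - 1) * Real.exp (-((c / 2) * t)) with hJ
  have hi := real_int hw (half_pos hc)
  have hnorm : ∀ n : ℕ, ∫ t in Ioi Y, ‖(t : ℂ) ^ (w - 1) *
      (b n * (Real.exp (-(c * ((n : ℝ) + 1) ^ 2) * t) : ℂ))‖ ≤
      J * (((n : ℝ) + 1) * Real.exp (-((c * (Y / 2)) * n))) := by
    intro n
    rw [mul_comm J]
    have h1 : ∫ t in Ioi Y, ‖(t : ℂ) ^ (w - 1) *
        (b n * (Real.exp (-(c * ((n : ℝ) + 1) ^ 2) * t) : ℂ))‖ ≤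
        ∫ t in Ioi Y, (((n : ℝ) + 1) * Real.exp (-((c * (Y / 2)) * n))) *
          (t ^ (w.re - 1) * Real.exp (-((c / 2) * t))) := by
      refine setIntegral_mono_on (hint n).norm
        ((hi.mono_set (Ioi_subset_Ioi hY.le)).const_mul _) measurableSet_Ioi fun t (ht : Y < t) => ?_
      have ht0 : 0 < t := by linarith
      rw [norm_mul, norm_cpow ht0]
      have h2 := norm_term (c := c) hb t n
      have hn : (0 : ℝ) ≤ n := Nat.cast_nonneg n
      have h3 : ((n : ℝ) + 1) * Real.exp (-(c * ((n : ℝ) + 1) ^ 2) * t) ≤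
          ((n : ℝ) + 1) * (Real.exp (-((c * (Y / 2)) * n)) * Real.exp (-((c / 2) * t))) := by
        refine mul_le_mul_of_nonneg_left ?_ (by positivity)
        rw [← Real.exp_add]
        refine Real.exp_le_exp.2 ?_
        have h4 : Y / 2 * n + t / 2 ≤ ((n : ℝ) + 1) ^ 2 * t := by
          nlinarith [mul_nonneg hn (by linarith : 0 ≤ t - Y), mul_nonneg hn ht0.le,
            mul_nonneg (mul_nonneg hn hn) ht0.le]
        nlinarith [mul_le_mul_of_nonneg_left h4 hc.le]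
      calc t ^ (w.re - 1) * ‖b n * (Real.exp (-(c * ((n : ℝ) + 1) ^ 2) * t) : ℂ)‖
          ≤ t ^ (w.re - 1) * (((n : ℝ) + 1) *
            (Real.exp (-((c * (Y / 2)) * n)) * Real.exp (-((c / 2) * t)))) :=
            mul_le_mul_of_nonneg_left (h2.trans h3) (by positivity)
        _ = _ := by ring
    refine h1.trans ?_
    rw [integral_const_mul]
    refine mul_le_mul_of_nonneg_left ?_ (by positivity)
    refine setIntegral_mono_set hi ?_ (Ioi_subset_Ioi hY.le).eventuallyLE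
    refine (ae_restrict_iff' measurableSet_Ioi).2 (Eventually.of_forall fun t (ht : 0 < t) => ?_)
    show (0 : ℝ) ≤ _
    positivity
  have hsum : Summable fun n : ℕ => ∫ t in Ioi Y, ‖(t : ℂ) ^ (w - 1) *
      (b n * (Real.exp (-(c * ((n : ℝ) + 1) ^ 2) * t) : ℂ))‖ := by
    refine Summable.of_nonneg_of_le (fun n => integral_nonneg fun t => norm_nonneg _) hnorm ?_
    exact (summable_nexp (by positivity)).mul_left _
  have e0 : ∀ t : ℝ, (t : ℂ) ^ (w - 1) * Th b c t =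
      ∑' n : ℕ, (t : ℂ) ^ (w - 1) * (b n * (Real.exp (-(c * ((n : ℝ) + 1) ^ 2) * t) : ℂ)) := by
    intro t
    unfold Th
    rw [tsum_mul_left]
  simp only [e0]
  rw [← integral_tsum_of_summable_integral_norm hint hsum]
  refine tsum_congr fun n => ?_
  rw [← scale (hpos n) hY, ← integral_const_mul]
  refine integral_congr_ae (Eventually.of_forall fun t => ?_)
  beta_reduce
  rw [neg_mul]
  ring

end

/-- the lower part of the integral -/
theorem int_low (g g' : ℝ → ℂ) (ε w : ℂ) (k : ℝ) {Y : ℝ} (hY : 0 < Y)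
    (h : ∀ t : ℝ, 0 < t → g t⁻¹ = ε * ((t ^ k : ℝ) : ℂ) * g' t) :
    ∫ t in Ioc 0 Y, (t : ℂ) ^ (w - 1) * g t =
      ε * ∫ t in Ioi Y⁻¹, (t : ℂ) ^ ((k - w) - 1) * g' t := by
  have h1 : ∫ t in Ioc 0 Y, (t : ℂ) ^ (w - 1) * g t = mellin ((Iic Y).indicator g) w := by
    rw [mellin]
    have e0 : ∀ t ∈ Ioi (0 : ℝ), (t : ℂ) ^ (w - 1) • (Iic Y).indicator g t =
        (Iic Y).indicator (fun t : ℝ => (t : ℂ) ^ (w - 1) * g t) t := by
      intro t _
      by_cases ht' : t ∈ Iic Y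
      · rw [indicator_of_mem ht', indicator_of_mem ht', smul_eq_mul]
      · rw [indicator_of_notMem ht', indicator_of_notMem ht', smul_zero]
    rw [setIntegral_congr_fun measurableSet_Ioi e0, setIntegral_indicator measurableSet_Iic]
    rfl
  have h2 : mellin ((Iic Y).indicator g) w =
      mellin (fun t => (Iic Y).indicator g t⁻¹) (-w) := by
    rw [mellin_comp_inv, neg_neg]
  rw [h1, h2, mellin]
  have h3 : ∀ t ∈ Ioi (0 : ℝ), (t : ℂ) ^ (-w - 1) • (Iic Y).indicator g t⁻¹ =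
      (Ici Y⁻¹).indicator (fun t : ℝ => ε * ((t : ℂ) ^ ((k - w) - 1) * g' t)) t := by
    intro t (ht' : 0 < t)
    by_cases hh : t⁻¹ ≤ Y
    · have hh' : Y⁻¹ ≤ t := inv_le_of_inv_le₀ ht' hh
      rw [indicator_of_mem (show t⁻¹ ∈ Iic Y from hh), indicator_of_mem (show t ∈ Ici Y⁻¹ from hh')]
      rw [h t ht', smul_eq_mul]
      have htc : (t : ℂ) ≠ 0 := by exact_mod_cast ht'.ne'
      have e2 : (t : ℂ) ^ (-w - 1) * ((t ^ k : ℝ) : ℂ) = (t : ℂ) ^ ((k - w) - 1) := by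
        rw [Complex.ofReal_cpow ht'.le, ← Complex.cpow_add _ _ htc]
        congr 1
        ring
      rw [← e2]
      ring
    · have hh' : ¬ Y⁻¹ ≤ t := fun h' => hh (inv_le_of_inv_le₀ hY h')
      rw [indicator_of_notMem (show t⁻¹ ∉ Iic Y from hh),
        indicator_of_notMem (show t ∉ Ici Y⁻¹ from hh'), smul_zero]
  rw [setIntegral_congr_fun measurableSet_Ioi h3, setIntegral_indicator measurableSet_Ici]
  have h4 : Ioi (0 : ℝ) ∩ Ici Y⁻¹ = Ici Y⁻¹ := by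
    apply inter_eq_right.2
    intro x hx
    have : 0 < Y⁻¹ := by positivity
    exact lt_of_lt_of_le this hx
  rw [h4, integral_Ici_eq_integral_Ioi, integral_const_mul]

/-- the coefficients -/
noncomputable def co {q : ℕ} (χ : DirichletCharacter ℂ q) (a n : ℕ) : ℂ :=
  χ ((n + 1 : ℕ) : ZMod q) * ((n : ℂ) + 1) ^ a

theorem norm_pow_le {a : ℕ} (ha : a ≤ 1) (n : ℕ) : ‖((n : ℂ) + 1) ^ a‖ ≤ (n : ℝ) + 1 := by
  have h1 : ‖(n : ℂ) + 1‖ = (n : ℝ) + 1 := by
    have h2 : ((n : ℂ) + 1) = (((n : ℝ) + 1 : ℝ) : ℂ) := by push_cast; rfl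
    rw [h2, Complex.norm_real, Real.norm_of_nonneg (by positivity)]
  rw [norm_pow, h1]
  have hn : (0 : ℝ) ≤ n := Nat.cast_nonneg n
  interval_cases a
  · simp
  · simp

theorem norm_co {q : ℕ} (χ : DirichletCharacter ℂ q) {a : ℕ} (ha : a ≤ 1) (n : ℕ) :
    ‖co χ a n‖ ≤ (n : ℝ) + 1 := by
  unfold co
  rw [norm_mul]
  calc ‖χ ((n + 1 : ℕ) : ZMod q)‖ * ‖((n : ℂ) + 1) ^ a‖ ≤ 1 * ((n : ℝ) + 1) :=
        mul_le_mul (DirichletCharacter.norm_le_one χ _) (norm_pow_le ha n) (norm_nonneg _)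
          zero_le_one
    _ = _ := one_mul _

theorem norm_co' {q : ℕ} (χ : DirichletCharacter ℂ q) {a : ℕ} (ha : a ≤ 1) (n : ℕ) :
    ‖(starRingEnd ℂ) (co χ a n)‖ ≤ (n : ℝ) + 1 := by
  rw [RCLike.norm_conj]
  exact norm_co χ ha n

theorem pw_cpow {c : ℝ} (hc : 0 < c) (n a : ℕ) (z : ℂ) :
    ((n : ℂ) + 1) ^ a * ((c * ((n : ℝ) + 1) ^ 2 : ℝ) : ℂ) ^ (-((z + a) / 2)) =
      (c : ℂ) ^ (-((z + a) / 2)) * ((n + 1 : ℕ) : ℂ) ^ (-z) := by
  have hn : ((n + 1 : ℕ) : ℂ) ≠ 0 := by exact_mod_cast (Nat.succ_ne_zero n)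
  have e1 : -((z + a) / 2) = (-(z + a)) / 2 := by ring
  have e2 : ((n : ℂ) + 1) ^ a = ((n + 1 : ℕ) : ℂ) ^ (a : ℂ) := by
    rw [Complex.cpow_natCast]
    push_cast
    rfl
  rw [e1, p_cpow hc, e2]
  have e3 : ((n + 1 : ℕ) : ℂ) ^ (-z) =
      ((n + 1 : ℕ) : ℂ) ^ (a : ℂ) * ((n + 1 : ℕ) : ℂ) ^ (-(z + a)) := by
    rw [← Complex.cpow_add _ _ hn]
    congr 1
    ring
  rw [e3]
  ring

theorem exists_F {q : ℕ} [NeZero q] (hq : 1 < q) {χ : DirichletCharacter ℂ q}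
    (hχ : χ.IsPrimitive) {a : ℕ} (ha : a ≤ 1) (ε : ℂ) (hε : ε ≠ 0)
    (hfe : ∀ x : ℝ, 0 < x → Th (co χ a) (Real.pi / q) x⁻¹ =
      ε * ((x ^ ((1 / 2 : ℝ) + a) : ℝ) : ℂ) *
        Th (fun n => (starRingEnd ℂ) (co χ a n)) (Real.pi / q) x) (z : ℂ) :
    χ.LFunction z = mellin (Th (co χ a) (Real.pi / q)) ((z + a) / 2) *
      ((Real.pi / q : ℝ) : ℂ) ^ ((z + a) / 2) * (Complex.Gamma ((z + a) / 2))⁻¹ ∧
    MellinConvergent (Th (co χ a) (Real.pi / q)) ((z + a) / 2) := by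
  have hq0 : (0 : ℝ) < q := by exact_mod_cast (by omega : 0 < q)
  set c : ℝ := Real.pi / q with hc'
  have hc : 0 < c := div_pos Real.pi_pos hq0
  have hcC : (c : ℂ) ≠ 0 := by exact_mod_cast hc.ne'
  have hb := fun n => norm_co χ ha n
  have hbc := fun n => norm_co' χ ha n
  let P : WeakFEPair ℂ :=
    { f := Th (co χ a) c
      g := Th (fun n => (starRingEnd ℂ) (co χ a n)) c
      k := (1 / 2 : ℝ) + a
      ε := ε
      f₀ := 0
      g₀ := 0
      hf_int := (continuousOn_Th hb hc).locallyIntegrableOn measurableSet_Ioi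
      hg_int := (continuousOn_Th hbc hc).locallyIntegrableOn measurableSet_Ioi
      hk := by positivity
      hε := hε
      h_feq := by
        intro x (hx : 0 < x)
        rw [one_div, hfe x hx, smul_eq_mul]
      hf_top := Th_isBigO hb hc
      hg_top := Th_isBigO hbc hc }
  have hP : IsStrongFEPair P := ⟨rfl, rfl⟩
  have hΛ : P.Λ = mellin (Th (co χ a) c) := hP.Λ_eq
  have hd : Differentiable ℂ (mellin (Th (co χ a) c)) := by
    rw [← hΛ]
    exact hP.differentiable_Λ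
  have hconv : ∀ z, MellinConvergent (Th (co χ a) c) z := fun z => (hP.hasMellin z).1
  refine ⟨?_, hconv _⟩
  let F : ℂ → ℂ := fun z => mellin (Th (co χ a) c) ((z + a) / 2) * (c : ℂ) ^ ((z + a) / 2) *
    (Complex.Gamma ((z + a) / 2))⁻¹
  have hFd : Differentiable ℂ F := by
    have h1 : Differentiable ℂ fun z : ℂ => (z + a) / 2 := by fun_prop
    have h2 : Differentiable ℂ fun z : ℂ => (c : ℂ) ^ ((z + a) / 2) := by
      intro z
      exact DifferentiableAt.const_cpow (by fun_prop) (Or.inl hcC)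
    exact ((hd.comp h1).mul h2).mul (Complex.differentiable_one_div_Gamma.comp h1)
  have hχ1 : χ ≠ 1 := by
    rintro rfl
    have h1 : (1 : DirichletCharacter ℂ q).conductor = q := hχ
    rw [DirichletCharacter.conductor_one] at h1
    omega
  have hLd := DirichletCharacter.differentiable_LFunction hχ1
  have hser : ∀ z : ℂ, 1 < z.re → χ.LFunction z = F z := by
    intro z hz
    have hz2 : ((z + a) / 2).re = (z.re + a) / 2 := by
      rw [Complex.div_ofNat_re, Complex.add_re, Complex.natCast_re]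
    have hz3 : 0 < ((z + a) / 2).re := by
      rw [hz2]
      have : (0 : ℝ) ≤ a := Nat.cast_nonneg a
      linarith
    have hG : Complex.Gamma ((z + a) / 2) ≠ 0 := Complex.Gamma_ne_zero_of_re_pos hz3
    have h1 := hasSum_mellin (a := co χ a) (p := fun n : ℕ => c * ((n : ℝ) + 1) ^ 2)
      (F := Th (co χ a) c)
      (s := (z + a) / 2) (fun n => Or.inr (by positivity)) hz3
      (fun t (ht : 0 < t) => (summable_term hb hc ht).hasSum)
      (by
        have h2 : Summable fun n : ℕ => 1 / c ^ ((z + a) / 2).re * ((n + 1 : ℕ) : ℝ) ^ (-z.re) :=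
          ((summable_nat_add_iff 1).2 (Real.summable_nat_rpow.2 (by linarith))).mul_left _
        refine Summable.of_nonneg_of_le (fun n => by positivity) (fun n => ?_) h2
        have hn : (0 : ℝ) < (n : ℝ) + 1 := by positivity
        have e1 : (c * ((n : ℝ) + 1) ^ 2) ^ ((z + a) / 2).re =
            c ^ ((z + a) / 2).re * (((n : ℝ) + 1) ^ z.re * ((n : ℝ) + 1) ^ a) := by
          rw [Real.mul_rpow hc.le (by positivity), ← Real.rpow_natCast, ← Real.rpow_mul hn.le,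
            hz2, ← Real.rpow_natCast _ a, ← Real.rpow_add hn]
          congr 2
          push_cast
          ring
        have e2 : ‖co χ a n‖ ≤ ((n : ℝ) + 1) ^ a := by
          unfold co
          rw [norm_mul, norm_pow]
          have h3 : ‖(n : ℂ) + 1‖ = (n : ℝ) + 1 := by
            have h4 : ((n : ℂ) + 1) = (((n : ℝ) + 1 : ℝ) : ℂ) := by push_cast; rfl
            rw [h4, Complex.norm_real, Real.norm_of_nonneg (by positivity)]
          rw [h3]
          exact mul_le_of_le_one_left (by positivity) (DirichletCharacter.norm_le_one χ _)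
        rw [e1, Real.rpow_neg (by positivity)]
        push_cast
        have hz0 : (0 : ℝ) < ((n : ℝ) + 1) ^ z.re := Real.rpow_pos_of_pos hn _
        have hc0 : (0 : ℝ) < c ^ ((z + a) / 2).re := Real.rpow_pos_of_pos hc _
        have ha0 : (0 : ℝ) < ((n : ℝ) + 1) ^ a := by positivity
        calc ‖co χ a n‖ / (c ^ ((z + a) / 2).re * (((n : ℝ) + 1) ^ z.re * ((n : ℝ) + 1) ^ a))
            ≤ ((n : ℝ) + 1) ^ a /
              (c ^ ((z + a) / 2).re * (((n : ℝ) + 1) ^ z.re * ((n : ℝ) + 1) ^ a)) :=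
              div_le_div_of_nonneg_right e2 (by positivity)
          _ = 1 / c ^ ((z + a) / 2).re * (((n : ℝ) + 1) ^ z.re)⁻¹ := by
              field_simp)
    have h2 := h1.tsum_eq
    have hcs : (c : ℂ) ^ ((z + a) / 2) ≠ 0 := by
      rw [Complex.cpow_def_of_ne_zero hcC]
      exact Complex.exp_ne_zero _
    have h3 : F z = ∑' n : ℕ, χ ((n + 1 : ℕ) : ZMod q) / ((n + 1 : ℕ) : ℂ) ^ z := by
      simp only [F]
      rw [← h2, ← tsum_mul_right, ← tsum_mul_right]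
      refine tsum_congr fun n => ?_
      have e3 := pw_cpow hc n a z
      rw [Complex.cpow_neg, Complex.cpow_neg, Complex.cpow_neg] at e3
      unfold co
      have e4 : (((c * ((n : ℝ) + 1) ^ 2 : ℝ) : ℂ) ^ ((z + a) / 2)) ≠ 0 := by
        rw [Complex.cpow_def_of_ne_zero (by exact_mod_cast (show c * ((n : ℝ) + 1) ^ 2 ≠ 0 by positivity))]
        exact Complex.exp_ne_zero _
      have e5 : Complex.Gamma ((z + a) / 2) * (Complex.Gamma ((z + a) / 2))⁻¹ = 1 :=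
        mul_inv_cancel₀ hG
      have e6 : ((c : ℂ) ^ ((z + a) / 2))⁻¹ * (c : ℂ) ^ ((z + a) / 2) = 1 := inv_mul_cancel₀ hcs
      rw [div_eq_mul_inv, div_eq_mul_inv]
      calc Complex.Gamma ((z + a) / 2) * (χ ((n + 1 : ℕ) : ZMod q) * ((n : ℂ) + 1) ^ a) *
            (((c * ((n : ℝ) + 1) ^ 2 : ℝ) : ℂ) ^ ((z + a) / 2))⁻¹ * (c : ℂ) ^ ((z + a) / 2) *
            (Complex.Gamma ((z + a) / 2))⁻¹
          = χ ((n + 1 : ℕ) : ZMod q) * (((n : ℂ) + 1) ^ a *
            (((c * ((n : ℝ) + 1) ^ 2 : ℝ) : ℂ) ^ ((z + a) / 2))⁻¹) * (c : ℂ) ^ ((z + a) / 2) *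
            (Complex.Gamma ((z + a) / 2) * (Complex.Gamma ((z + a) / 2))⁻¹) := by ring
        _ = χ ((n + 1 : ℕ) : ZMod q) * (((n + 1 : ℕ) : ℂ) ^ z)⁻¹ *
            (((c : ℂ) ^ ((z + a) / 2))⁻¹ * (c : ℂ) ^ ((z + a) / 2)) := by
            rw [e3, e5]; ring
        _ = _ := by rw [e6, mul_one, div_eq_mul_inv]
    rw [h3, DirichletCharacter.LFunction_eq_LSeries χ hz]
    have h4 : Summable (LSeries.term (fun n => χ (n : ZMod q)) z) :=
      DirichletCharacter.LSeriesSummable_of_one_lt_re χ hz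
    unfold LSeries
    rw [h4.tsum_eq_zero_add, LSeries.term_zero, zero_add]
    refine tsum_congr fun n => ?_
    rw [LSeries.term_of_ne_zero (by omega)]
  have heq : χ.LFunction = F := by
    have h1 : AnalyticOnNhd ℂ χ.LFunction univ := fun z _ => hLd.analyticAt z
    have h2 : AnalyticOnNhd ℂ F univ := fun z _ => hFd.analyticAt z
    refine h1.eq_of_eventuallyEq h2 (z₀ := 2) ?_
    have h3 : ∀ᶠ z : ℂ in 𝓝 2, 1 < z.re := by
      refine (Complex.continuous_re.isOpen_preimage _ isOpen_Ioi).mem_nhds ?_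
      show (1 : ℝ) < (2 : ℂ).re
      norm_num
    filter_upwards [h3] with z hz
    exact hser z hz
  rw [heq]

/-- the functional equation of the theta function -/
theorem theta_fe {q : ℕ} [NeZero q] (hq : 1 < q) {χ : DirichletCharacter ℂ q}
    (hχ : χ.IsPrimitive) {a : ℕ} (ha : a ≤ 1) (hp : χ (-1) = (-1) ^ a) {x : ℝ} (hx : 0 < x) :
    Th (co χ a) (Real.pi / q) x⁻¹ =
      ((-Complex.I) ^ a * gaussSum χ ZMod.stdAddChar / (Real.sqrt q : ℂ)) *
        ((x ^ ((1 / 2 : ℝ) + a) : ℝ) : ℂ) *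
        Th (fun n => (starRingEnd ℂ) (co χ a n)) (Real.pi / q) x := by
  have hq0 : (0 : ℝ) < q := by exact_mod_cast (by omega : 0 < q)
  have hco : ∀ n : ℕ, (starRingEnd ℂ) (co χ a n) =
      (starRingEnd ℂ) (χ ((n + 1 : ℕ) : ZMod q)) * ((n : ℂ) + 1) ^ a := by
    intro n
    unfold co
    rw [map_mul, map_pow, map_add, map_one, Complex.conj_natCast]
  simp only [hco]
  interval_cases a
  · have h1 := Pool.Agent.Y161.R10.the q hq χ hχ (by simpa [DirichletCharacter.Even] using hp) x hx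
    unfold Th co
    have e1 : ∀ n : ℕ, -(Real.pi / q * ((n : ℝ) + 1) ^ 2) * x⁻¹ =
        -Real.pi * ((n : ℝ) + 1) ^ 2 / (x * q) := by
      intro n
      field_simp
    have e2 : ∀ n : ℕ, -(Real.pi / q * ((n : ℝ) + 1) ^ 2) * x =
        -Real.pi * ((n : ℝ) + 1) ^ 2 * x / q := by
      intro n
      field_simp
    simp only [e1, e2, pow_zero, mul_one, one_mul, Nat.cast_zero, add_zero]
    rw [← Real.sqrt_eq_rpow]
    exact h1
  · have h1 := oddthe χ hχ (by simpa using hp) hx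
    unfold Th co
    have e1 : ∀ n : ℕ, -(Real.pi / q * ((n : ℝ) + 1) ^ 2) * x⁻¹ =
        -Real.pi * ((n : ℝ) + 1) ^ 2 * (x⁻¹ / q) := by
      intro n
      field_simp
    have e2 : ∀ n : ℕ, -(Real.pi / q * ((n : ℝ) + 1) ^ 2) * x =
        -Real.pi * ((n : ℝ) + 1) ^ 2 * (x / q) := by
      intro n
      field_simp
    have e3 : (1 / 2 : ℝ) + ((1 : ℕ) : ℝ) = 3 / 2 := by norm_num
    have e4 : ∀ n : ℕ, (starRingEnd ℂ) (χ ((n + 1 : ℕ) : ZMod q)) =
        χ⁻¹ ((n + 1 : ℕ) : ZMod q) := fun n => MulChar.star_apply' χ _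
    simp only [e1, e2, e3, e4, pow_one, mul_assoc]
    simp only [mul_assoc] at h1
    exact h1

theorem afg : Pool.Agent.Y766.R11.S_AFG := by
  intro q _ hq χ hχ a ha hp
  have hq0 : (0 : ℝ) < q := by exact_mod_cast (by omega : 0 < q)
  set c : ℝ := Real.pi / q with hc'
  have hc : 0 < c := div_pos Real.pi_pos hq0
  have hcC : (c : ℂ) ≠ 0 := by exact_mod_cast hc.ne'
  set ε : ℂ := (-Complex.I) ^ a * gaussSum χ ZMod.stdAddChar / (Real.sqrt q : ℂ) with hε'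
  have hεn : ‖ε‖ = 1 := by
    have h1 := Pool.Agent.Helper112.MLS.norm_gauss q hχ
    have h2 : ‖gaussSum χ (ZMod.stdAddChar (N := q))‖ = Real.sqrt q := by
      rw [← h1, Real.sqrt_sq (norm_nonneg _)]
    rw [hε', norm_div, norm_mul, norm_pow, norm_neg, Complex.norm_I, one_pow, one_mul, h2,
      Complex.norm_real, Real.norm_of_nonneg (Real.sqrt_nonneg _)]
    exact div_self (Real.sqrt_pos.2 hq0).ne'
  have hε : ε ≠ 0 := by
    intro h0
    rw [h0, norm_zero] at hεn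
    exact zero_ne_one hεn
  refine ⟨ε, hεn, ?_⟩
  intro s hs0 hs1 Y hY
  have hfe : ∀ x : ℝ, 0 < x → Th (co χ a) c x⁻¹ = ε * ((x ^ ((1 / 2 : ℝ) + a) : ℝ) : ℂ) *
        Th (fun n => (starRingEnd ℂ) (co χ a n)) c x := fun x hx => theta_fe hq hχ ha hp hx
  have haR : (0 : ℝ) ≤ a := Nat.cast_nonneg a
  have hw0 : 0 < ((s + a) / 2).re := by
    rw [Complex.div_ofNat_re, Complex.add_re, Complex.natCast_re]
    linarith
  have hw1 : 0 < ((1 - s + a) / 2).re := by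
    rw [Complex.div_ofNat_re, Complex.add_re, Complex.natCast_re, Complex.sub_re, Complex.one_re]
    linarith
  have hG : Complex.Gamma ((s + a) / 2) ≠ 0 := Complex.Gamma_ne_zero_of_re_pos hw0
  have hG1 : Complex.Gamma ((1 - s + a) / 2) ≠ 0 := Complex.Gamma_ne_zero_of_re_pos hw1
  obtain ⟨hL, hconv⟩ := exists_F hq hχ ha ε hε hfe s
  rw [← hc'] at hL hconv
  have hI : ∀ (φ : ℕ → ℂ) (z : ℂ), (∀ n, ‖φ n * ((n : ℂ) + 1) ^ a‖ ≤ (n : ℝ) + 1) →
      0 < ((z + a) / 2).re → ∀ Z : ℝ, 0 < Z →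
      ∫ x in Ioi Z, (x : ℂ) ^ ((z + a) / 2 - 1) * Th (fun n => φ n * ((n : ℂ) + 1) ^ a) c x =
      ((c : ℂ) ^ (-((z + a) / 2)) * Complex.Gamma ((z + a) / 2)) *
        ∑' n : ℕ, φ n * ((n + 1 : ℕ) : ℂ) ^ (-z) *
          Pool.Agent.Y766.R10.QG ((z + a) / 2) (c * ((n : ℝ) + 1) ^ 2 * Z) := by
    intro φ z hφ hz Z hZ
    have hGz : Complex.Gamma ((z + a) / 2) ≠ 0 := Complex.Gamma_ne_zero_of_re_pos hz
    rw [int_tail hφ hc hZ hz, ← tsum_mul_left]
    refine tsum_congr fun n => ?_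
    have e1 := pw_cpow hc n a z
    have e2 : IG ((z + a) / 2) (c * ((n : ℝ) + 1) ^ 2 * Z) = Complex.Gamma ((z + a) / 2) *
        Pool.Agent.Y766.R10.QG ((z + a) / 2) (c * ((n : ℝ) + 1) ^ 2 * Z) := by
      unfold IG Pool.Agent.Y766.R10.QG
      rw [mul_div_cancel₀ _ hGz]
    rw [e2]
    calc φ n * ((n : ℂ) + 1) ^ a * (((c * ((n : ℝ) + 1) ^ 2 : ℝ) : ℂ) ^ (-((z + a) / 2)) *
          (Complex.Gamma ((z + a) / 2) *
            Pool.Agent.Y766.R10.QG ((z + a) / 2) (c * ((n : ℝ) + 1) ^ 2 * Z)))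
        = φ n * (((n : ℂ) + 1) ^ a * ((c * ((n : ℝ) + 1) ^ 2 : ℝ) : ℂ) ^ (-((z + a) / 2))) *
          (Complex.Gamma ((z + a) / 2) *
            Pool.Agent.Y766.R10.QG ((z + a) / 2) (c * ((n : ℝ) + 1) ^ 2 * Z)) := by ring
      _ = _ := by
          rw [e1]
          ring
  have hsplit : mellin (Th (co χ a) c) ((s + a) / 2) =
      (∫ x in Ioc 0 Y, (x : ℂ) ^ ((s + a) / 2 - 1) * Th (co χ a) c x) +
      ∫ x in Ioi Y, (x : ℂ) ^ ((s + a) / 2 - 1) * Th (co χ a) c x := by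
    rw [mellin, ← Ioc_union_Ioi_eq_Ioi hY.le]
    refine setIntegral_union (Ioc_disjoint_Ioi le_rfl) measurableSet_Ioi ?_ ?_
    · exact hconv.mono_set (Ioc_subset_Ioi_self)
    · exact hconv.mono_set (Ioi_subset_Ioi hY.le)
  have hlow := int_low (Th (co χ a) c) (Th (fun n => (starRingEnd ℂ) (co χ a n)) c) ε ((s + a) / 2)
    ((1 / 2 : ℝ) + a) hY hfe
  have hk : ((((1 / 2 : ℝ) + a : ℝ) : ℂ) - (s + a) / 2) = (1 - s + a) / 2 := by
    push_cast
    ring
  have hco : (fun n => (starRingEnd ℂ) (co χ a n)) =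
      fun n : ℕ => (starRingEnd ℂ) (χ ((n + 1 : ℕ) : ZMod q)) * ((n : ℂ) + 1) ^ a := by
    funext n
    unfold co
    rw [map_mul, map_pow, map_add, map_one, Complex.conj_natCast]
  rw [hk, hco, hI (fun n => (starRingEnd ℂ) (χ ((n + 1 : ℕ) : ZMod q))) (1 - s) (fun n => by
    have := norm_co' χ ha n
    rwa [congrFun hco n] at this) hw1 _ (inv_pos.2 hY)] at hlow
  have hup := hI (fun n => χ ((n + 1 : ℕ) : ZMod q)) s (fun n => norm_co χ ha n) hw0 Y hY
  have hco2 : (fun n : ℕ => χ ((n + 1 : ℕ) : ZMod q) * ((n : ℂ) + 1) ^ a) = co χ a := rfl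
  rw [hco2] at hup
  rw [hL, hsplit, hlow, hup]
  have e1 : ∀ n : ℕ, c * ((n : ℝ) + 1) ^ 2 * Y = Real.pi * ((n : ℝ) + 1) ^ 2 * Y / q := by
    intro n
    rw [hc']
    ring
  have e2 : ∀ n : ℕ, c * ((n : ℝ) + 1) ^ 2 * Y⁻¹ = Real.pi * ((n : ℝ) + 1) ^ 2 / (Y * q) := by
    intro n
    rw [hc']
    field_simp
  simp only [e1, e2]
  have e3 : (((q : ℝ) / Real.pi : ℝ) : ℂ) ^ (1 / 2 - s) =
      (c : ℂ) ^ (-((1 - s + a) / 2)) * (c : ℂ) ^ ((s + a) / 2) := by
    rw [← Complex.cpow_add _ _ hcC]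
    have h1 : ((q : ℝ) / Real.pi : ℝ) = c⁻¹ := by
      rw [hc', inv_div]
    have h2 : -((1 - s + (a : ℂ)) / 2) + (s + a) / 2 = -(1 / 2 - s) := by ring
    rw [h1, h2, Complex.cpow_neg, Complex.ofReal_inv, Complex.inv_cpow]
    rw [Complex.arg_ofReal_of_nonneg hc.le]
    exact Real.pi_pos.ne
  rw [e3]
  generalize (∑' n : ℕ, χ ((n + 1 : ℕ) : ZMod q) * ((n + 1 : ℕ) : ℂ) ^ (-s) *
    Pool.Agent.Y766.R10.QG ((s + a) / 2) (Real.pi * ((n : ℝ) + 1) ^ 2 * Y / q)) = A1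
  generalize (∑' n : ℕ, (starRingEnd ℂ) (χ ((n + 1 : ℕ) : ZMod q)) *
    ((n + 1 : ℕ) : ℂ) ^ (-(1 - s)) *
    Pool.Agent.Y766.R10.QG ((1 - s + a) / 2) (Real.pi * ((n : ℝ) + 1) ^ 2 / (Y * q))) = A2
  have h1 : (c : ℂ) ^ (-((s + a) / 2)) * (c : ℂ) ^ ((s + a) / 2) = 1 := by
    rw [← Complex.cpow_add _ _ hcC, neg_add_cancel, Complex.cpow_zero]
  have h2 : Complex.Gamma ((s + a) / 2) * (Complex.Gamma ((s + a) / 2))⁻¹ = 1 :=
    mul_inv_cancel₀ hG
  have h3 : Complex.Gamma ((1 - s + a) / 2) / Complex.Gamma ((s + a) / 2) =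
    Complex.Gamma ((1 - s + a) / 2) * (Complex.Gamma ((s + a) / 2))⁻¹ := div_eq_mul_inv _ _
  rw [h3]
  generalize (c : ℂ) ^ (-((s + a) / 2)) = u at h1 ⊢
  generalize (c : ℂ) ^ ((s + a) / 2) = v at h1 ⊢
  generalize (Complex.Gamma ((s + a) / 2))⁻¹ = k at h2 ⊢
  generalize Complex.Gamma ((s + a) / 2) = l at h2 ⊢
  linear_combination A1 * l * k * h1 + A1 * h2

end Pool.Agent.Y306.R11
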